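import Pool.Agent.W757.SG.Main2
import Pool.Agent.W174.SG.Fun3

/-!
There is a transcendental entire function with a multiply connected wandering domain of infinite
inner connectivity which has uncountably many one-point complementary components.
-/

set_option autoImplicit false

open Pool.Agent.H384R2.Fatou Pool.Agent.W757.SG

/-- Existence of a multiply connected wandering domain of infinite inner connectivity with
uncountably many one-point complementary components. -/
theorem Pool.Agent.Results.MP_571b65_an.SingletonComponents.result :
    ∃ f : ℂ → ℂ, Differentiable ℂ f ∧ (¬ ∃ p : Polynomial ℂ, ∀ z, f z = p.eval z) ∧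
      ∃ U : Set ℂ, (∃ z ∈ FatouSet f, U = FatouComponent f z) ∧ IsWanderingDomain f U ∧
        MultiplyConnected U ∧ InfiniteInnerConnectivity f U ∧
        ¬ {p : ℂ | p ∈ Uᶜ ∧ connectedComponentIn Uᶜ p = {p}}.Countable :=
  ⟨ff, main_of3 (Pool.Agent.W174.SG.fun3 Pool.Agent.W174.SG.fun1)⟩
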